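import Mathlib
import Pool.Agent.W547.KB.Defs

/-!
# Quadratic characters of the group of automorphisms of `ℂ` and imaginary quadratic fields
-/

set_option autoImplicit false

namespace Pool.Agent.N691.GHC

open Module NumberField
open Pool.Agent.H204R3.CM (IsCMType)
open Pool.Agent.W547.KB (CMPair)

noncomputable section

/-- the sum over the classes of automorphisms -/
theorem exists_z {I : Type} [Finite I] (A : I → Type) [∀ i, Ring (A i)]
    [∀ i, Finite (A i →+* ℂ)] (φ : ∀ i, A i →+* ℂ) (κ : (ℂ ≃+* ℂ) → ℤ)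
    (h1 : ∀ σ, κ σ = 1 ∨ κ σ = -1)
    (h2 : ∀ σ τ : ℂ ≃+* ℂ, κ (τ.trans σ) = κ σ * κ τ)
    (h4 : ∀ σ τ : ℂ ≃+* ℂ, (∀ i, (σ : ℂ →+* ℂ).comp (φ i) = (τ : ℂ →+* ℂ).comp (φ i)) →
      κ σ = κ τ) : ∃ z : ℂ, z ≠ 0 ∧ ∀ σ : ℂ ≃+* ℂ, σ z = κ σ * z := by
  classical
  let r : (ℂ ≃+* ℂ) → (∀ i, A i →+* ℂ) := fun σ i => (σ : ℂ →+* ℂ).comp (φ i)
  let C := Set.range r
  have hC : Finite C := inferInstance
  let _ : Fintype C := Fintype.ofFinite C
  choose s hs using fun c : C => c.2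
  have hκ : ∀ σ τ, r σ = r τ → κ σ = κ τ := fun σ τ h => h4 σ τ fun i => congrFun h i
  let G : Submonoid ℂ := Submonoid.closure (⋃ i, Set.range (φ i))
  have hG : ∀ i (x : A i), φ i x ∈ G := fun i x =>
    Submonoid.subset_closure (Set.mem_iUnion.2 ⟨i, x, rfl⟩)
  have hagree : ∀ σ τ : ℂ ≃+* ℂ, r σ = r τ → ∀ θ ∈ G, σ θ = τ θ := by
    intro σ τ h θ hθ
    induction hθ using Submonoid.closure_induction with
    | mem x hx =>
      obtain ⟨i, y, rfl⟩ := Set.mem_iUnion.1 hx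
      exact DFunLike.congr_fun (congrFun h i) y
    | one => rw [map_one, map_one]
    | mul x y _ _ hx hy => rw [map_mul, map_mul, hx, hy]
  -- the action of the automorphisms on the classes
  let π : (ℂ ≃+* ℂ) → C → C := fun τ c => ⟨r ((s c).trans τ), _, rfl⟩
  have hπ : ∀ τ c, r (s (π τ c)) = r ((s c).trans τ) := fun τ c => hs (π τ c)
  have hπi : ∀ τ, Function.Injective (π τ) := by
    intro τ c d h
    have h' : r ((s c).trans τ) = r ((s d).trans τ) := congrArg Subtype.val h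
    apply Subtype.ext
    rw [← hs c, ← hs d]
    funext i
    ext x
    exact τ.injective (DFunLike.congr_fun (congrFun h' i) x)
  have hπb : ∀ τ, Function.Bijective (π τ) := fun τ => Finite.injective_iff_bijective.1 (hπi τ)
  -- the sums
  let S : ℂ → ℂ := fun θ => ∑ c : C, (κ (s c) : ℂ) * s c θ
  have hS : ∀ θ ∈ G, ∀ τ : ℂ ≃+* ℂ, τ (S θ) = κ τ * S θ := by
    intro θ hθ τ
    have e1 : τ (S θ) = ∑ c : C, (κ (s c) : ℂ) * τ (s c θ) := by
      show τ (∑ c : C, (κ (s c) : ℂ) * s c θ) = _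
      rw [map_sum]
      refine Finset.sum_congr rfl fun c _ => ?_
      rw [map_mul, map_intCast]
    have e2 : ∀ c : C, (κ (s c) : ℂ) * τ (s c θ) =
        (κ τ : ℂ) * ((κ (s (π τ c)) : ℂ) * s (π τ c) θ) := by
      intro c
      have e3 : κ (s (π τ c)) = κ τ * κ (s c) := by rw [hκ _ _ (hπ τ c), h2]
      have e4 : s (π τ c) θ = τ (s c θ) := hagree _ _ (hπ τ c) θ hθ
      rw [e3, e4]
      have e5 : (κ τ : ℂ) * (κ τ : ℂ) = 1 := by
        rcases h1 τ with h | h <;> rw [h] <;> norm_num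
      push_cast
      linear_combination (-(κ (s c) : ℂ) * τ (s c θ)) * e5
    rw [e1, Finset.sum_congr rfl fun c _ => e2 c, ← Finset.mul_sum]
    congr 1
    exact (Equiv.ofBijective _ (hπb τ)).sum_comp fun c : C => (κ (s c) : ℂ) * s c θ
  -- independence of the characters
  let m : C → (G →* ℂ) := fun c => ((s c : ℂ →+* ℂ) : ℂ →* ℂ).comp G.subtype
  have hm : Function.Injective m := by
    intro c d h
    apply Subtype.ext
    rw [← hs c, ← hs d]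
    funext i
    ext x
    exact DFunLike.congr_fun h ⟨φ i x, hG i x⟩
  have hli : LinearIndependent ℂ fun c : C => (m c : G → ℂ) :=
    (linearIndependent_monoidHom G ℂ).comp m hm
  have hex : ∃ θ ∈ G, S θ ≠ 0 := by
    by_contra hcon
    push Not at hcon
    have h := Fintype.linearIndependent_iff.1 hli (fun c => (κ (s c) : ℂ)) (by
      funext θ
      rw [Finset.sum_apply]
      exact hcon θ.1 θ.2)
    have h3 := h ⟨r (RingEquiv.refl ℂ), _, rfl⟩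
    rcases h1 (s ⟨r (RingEquiv.refl ℂ), _, rfl⟩) with h5 | h5 <;> rw [h5] at h3 <;>
      norm_num at h3
  obtain ⟨θ, hθ, hne⟩ := hex
  exact ⟨S θ, hne, hS θ hθ⟩

section field

variable {z : ℂ}

open IntermediateField

theorem isIntegral_z {q : ℚ} (hq : z ^ 2 = q) : IsIntegral ℚ z :=
  ⟨Polynomial.X ^ 2 - Polynomial.C q, Polynomial.monic_X_pow_sub_C q two_ne_zero, by
    simp [hq]⟩

theorem finrank_z (hz : z ≠ 0) {q : ℚ} (hq : z ^ 2 = q) (hc : (starRingEnd ℂ) z = -z) :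
    finrank ℚ ℚ⟮z⟯ = 2 := by
  rw [IntermediateField.adjoin.finrank (isIntegral_z hq)]
  apply le_antisymm
  · have hd : minpoly ℚ z ∣ Polynomial.X ^ 2 - Polynomial.C q :=
      minpoly.dvd ℚ z (by simp [hq])
    have h1 := Polynomial.natDegree_le_of_dvd hd
      (Polynomial.X_pow_sub_C_ne_zero two_pos q)
    rwa [Polynomial.natDegree_X_pow_sub_C] at h1
  · rw [minpoly.two_le_natDegree_iff (isIntegral_z hq)]
    rintro ⟨r, hr⟩
    apply hz
    have h1 : (starRingEnd ℂ) z = z := by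
      rw [← hr]
      simp
    rw [hc] at h1
    linear_combination (-(1 / 2) : ℂ) * h1

theorem emb_z {q : ℚ} (hq : z ^ 2 = q) (φ : ℚ⟮z⟯ →+* ℂ) :
    φ (AdjoinSimple.gen ℚ z) = z ∨ φ (AdjoinSimple.gen ℚ z) = -z := by
  apply sq_eq_sq_iff_eq_or_eq_neg.1
  rw [← map_pow, hq]
  have h : (AdjoinSimple.gen ℚ z) ^ 2 = algebraMap ℚ ℚ⟮z⟯ q := by
    apply (algebraMap ℚ⟮z⟯ ℂ).injective
    rw [map_pow, AdjoinSimple.algebraMap_gen, hq]
    simp
  rw [h]
  simp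

theorem ext_z {q : ℚ} (hq : z ^ 2 = q) (φ ψ : ℚ⟮z⟯ →+* ℂ)
    (h : φ (AdjoinSimple.gen ℚ z) = ψ (AdjoinSimple.gen ℚ z)) : φ = ψ := by
  have h1 : φ.toRatAlgHom = ψ.toRatAlgHom := by
    apply (adjoin.powerBasis (isIntegral_z hq)).algHom_ext
    rw [adjoin.powerBasis_gen]
    exact h
  ext x
  exact DFunLike.congr_fun h1 x

theorem ne_neg_z (hz : z ≠ 0) : z ≠ -z := fun h => hz (by linear_combination (1 / 2 : ℂ) * h)

theorem conj_gen (hc : (starRingEnd ℂ) z = -z) (φ : ℚ⟮z⟯ →+* ℂ)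
    (h : φ (AdjoinSimple.gen ℚ z) = z ∨ φ (AdjoinSimple.gen ℚ z) = -z) :
    ComplexEmbedding.conjugate φ (AdjoinSimple.gen ℚ z) = -φ (AdjoinSimple.gen ℚ z) := by
  rw [ComplexEmbedding.conjugate_coe_eq]
  rcases h with h | h
  · rw [h, hc]
  · rw [h, map_neg, hc]

theorem exists_pair (hz : z ≠ 0) {q : ℚ} (hq : z ^ 2 = q) (hc : (starRingEnd ℂ) z = -z) :
    ∃ P : CMPair, finrank ℚ P.E = 2 ∧ ∃ φ : P.E →+* ℂ, ∀ σ : ℂ ≃+* ℂ,
      ((σ : ℂ →+* ℂ).comp φ ∈ P.Φ ↔ σ z = z) := by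
  have hfr := finrank_z hz hq hc
  have hfd : FiniteDimensional ℚ ℚ⟮z⟯ := adjoin.finiteDimensional (isIntegral_z hq)
  have hnf : NumberField ℚ⟮z⟯ := ⟨⟩
  have htc : IsTotallyComplex ℚ⟮z⟯ := by
    refine ⟨fun w => ?_⟩
    rw [InfinitePlace.isComplex_iff]
    intro hreal
    have h1 : ComplexEmbedding.conjugate w.embedding = w.embedding := hreal
    have h2 := emb_z hq w.embedding
    have h3 := conj_gen hc w.embedding h2
    rw [h1] at h3
    have h4 : w.embedding (AdjoinSimple.gen ℚ z) = 0 := by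
      linear_combination (1 / 2 : ℂ) * h3
    rcases h2 with h2 | h2
    · exact hz (by rw [← h2, h4])
    · exact hz (by rw [← neg_eq_zero, ← h2, h4])
  have hquad : Algebra.IsQuadraticExtension ℚ ℚ⟮z⟯ := ⟨hfr⟩
  have hcm : IsCMField ℚ⟮z⟯ := IsCMField.ofCMExtension ℚ ℚ⟮z⟯
  let ι : ℚ⟮z⟯ →+* ℂ := algebraMap ℚ⟮z⟯ ℂ
  have hι : ι (AdjoinSimple.gen ℚ z) = z := AdjoinSimple.algebraMap_gen ℚ z
  have hmem : ∀ φ : ℚ⟮z⟯ →+* ℂ, φ ∈ ({ι} : Set (ℚ⟮z⟯ →+* ℂ)) ↔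
      φ (AdjoinSimple.gen ℚ z) = z := by
    intro φ
    constructor
    · intro h
      rw [Set.mem_singleton_iff.1 h, hι]
    · intro h
      exact Set.mem_singleton_iff.2 (ext_z hq φ ι (h.trans hι.symm))
  have htype : IsCMType ({ι} : Set (ℚ⟮z⟯ →+* ℂ)) := by
    intro φ
    rw [hmem, hmem]
    have h2 := emb_z hq φ
    rw [conj_gen hc φ h2]
    rcases h2 with h | h
    · rw [h]
      exact ⟨fun _ h' => ne_neg_z hz h'.symm, fun _ => rfl⟩
    · rw [h, neg_neg]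
      exact ⟨fun h' _ => ne_neg_z hz h'.symm, fun h' => absurd rfl h'⟩
  refine ⟨⟨ℚ⟮z⟯, {ι}, htype⟩, hfr, ι, fun σ => ?_⟩
  show (σ : ℂ →+* ℂ).comp ι ∈ ({ι} : Set (ℚ⟮z⟯ →+* ℂ)) ↔ σ z = z
  rw [hmem]
  show σ (ι (AdjoinSimple.gen ℚ z)) = z ↔ σ z = z
  rw [hι]

end field

end

end Pool.Agent.N691.GHC
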