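import Mathlib
import Pool.Agent.N178.HX.StmG
import Pool.Agent.W437.HD.Fixed
import Pool.Agent.N691.GHC.Quad

/-!
# Odd quadratic characters of the group of automorphisms of `ℂ`
-/

set_option autoImplicit false

namespace Pool.Agent.N691.GHC

open Module NumberField
open Pool.Agent.N178.HX
open Pool.Agent.W547.KB (CMPair)

theorem t_KCH : Pool.Agent.N178.HX.S_KCH := by
  intro K _ E _ _ κ h1 h2 h3 h4
  obtain ⟨z, hz, hσ⟩ := exists_z (I := Σ k, (E k →+* ℂ)) (fun i => E i.1) (fun i => i.2) κ h1 h2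
    (fun σ τ h => h4 σ τ fun k φ => h ⟨k, φ⟩)
  have hq : ∃ q : ℚ, z ^ 2 = q := by
    by_contra hcon
    push Not at hcon
    obtain ⟨σ, hs⟩ := Pool.Agent.W437.HD.exists_move hcon
    apply hs
    rw [map_pow, hσ]
    rcases h1 σ with h | h <;> rw [h] <;> push_cast <;> ring
  obtain ⟨q, hq⟩ := hq
  have hc : (starRingEnd ℂ) z = -z := by
    have h5 := hσ (starRingAut : ℂ ≃+* ℂ)
    rw [h3 _ (fun x => rfl)] at h5
    have h6 : (starRingAut : ℂ ≃+* ℂ) z = (starRingEnd ℂ) z := rfl
    rw [h6] at h5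
    rw [h5]
    push_cast
    ring
  obtain ⟨P, hP, φ, hφ⟩ := exists_pair hz hq hc
  refine ⟨P, hP, φ, fun σ => ?_⟩
  unfold sg
  by_cases h : σ z = z
  · rw [if_pos ((hφ σ).2 h)]
    rcases h1 σ with h5 | h5
    · rw [h5]
    · exfalso
      have h6 := hσ σ
      rw [h5, h] at h6
      push_cast at h6
      apply ne_neg_z hz
      linear_combination h6
  · rw [if_neg (fun h' => h ((hφ σ).1 h'))]
    rcases h1 σ with h5 | h5
    · exfalso
      apply h
      rw [hσ σ, h5]
      push_cast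
      ring
    · rw [h5]

end Pool.Agent.N691.GHC
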